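import Pool.Agent.Run7.h216.RSI.RAD

/-! Project RSI (helper325), piece GINT (helper216): the mass of a power atom of the weight. -/

set_option autoImplicit false

open MeasureTheory Filter Topology Metric Set

namespace Run7.h216.RSI

open Pool.Agent.Run7.h325.RSI

theorem r0_pos {m : ℕ} (hm : 1 ≤ m) : 0 < r0 m := by
  have : (0 : ℝ) < m := by exact_mod_cast hm
  unfold r0
  positivity

theorem dl_pos {m : ℕ} (hm : 1 ≤ m) : 0 < dl m := by
  have : (0 : ℝ) < m := by exact_mod_cast hm
  unfold dl
  positivity

/-- the radial integrand, on `(0, t)` -/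
theorem gint_aux {m : ℕ} (hm : 1 ≤ m) {t r : ℝ} (ht : t ≤ r0 m) (hr : 0 < r) :
    r * (Iio t).indicator (Gr m) r =
      (Iio t).indicator (fun r => r0 m / (r0 m) ^ (dl m - 1) * r ^ (dl m - 1)) r := by
  have h0 := r0_pos hm
  by_cases h : r < t
  · rw [indicator_of_mem (show r ∈ Iio t from h), indicator_of_mem (show r ∈ Iio t from h)]
    unfold Gr
    rw [if_pos ⟨hr, h.trans_le ht⟩, show -(2 - dl m) = dl m - 1 - 1 by ring,
      Real.rpow_sub_one (by positivity) (dl m - 1), Real.div_rpow hr.le h0.le]
    field_simp
  · rw [indicator_of_notMem (show r ∉ Iio t from h), indicator_of_notMem (show r ∉ Iio t from h),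
      mul_zero]

theorem t_GINT : S_GINT := by
  intro m hm t ht htr
  have h0 := r0_pos hm
  have hd := dl_pos hm
  have hm0 : (0 : ℝ) < m := by exact_mod_cast hm
  have key : ∀ x : E2, (ball (0 : E2) t).indicator (fun x => Gr m ‖x‖) x =
      (Iio t).indicator (Gr m) ‖x‖ := by
    intro x
    by_cases h : ‖x‖ < t
    · rw [indicator_of_mem (by simpa using h), indicator_of_mem (by simpa using h)]
    · rw [indicator_of_notMem (by simpa using h), indicator_of_notMem (by simpa using h)]
  have hii : IntervalIntegrable (fun r : ℝ => r0 m / (r0 m) ^ (dl m - 1) * r ^ (dl m - 1))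
      volume 0 t := (intervalIntegral.intervalIntegrable_rpow' (by linarith)).const_mul _
  have hio : IntegrableOn (fun r : ℝ => r0 m / (r0 m) ^ (dl m - 1) * r ^ (dl m - 1))
      (Ioo 0 t) := by
    rw [intervalIntegrable_iff_integrableOn_Ioo_of_le ht.le] at hii
    exact hii
  refine ⟨?_, ?_⟩
  · rw [← integrable_indicator_iff measurableSet_ball]
    have : (ball (0 : E2) t).indicator (fun x => Gr m ‖x‖) =
        fun x : E2 => (Iio t).indicator (Gr m) ‖x‖ := funext key
    rw [this, t_RAD.2.1]
    have hE : EqOn (fun r => r * (Iio t).indicator (Gr m) r)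
        ((Iio t).indicator (fun r => r0 m / (r0 m) ^ (dl m - 1) * r ^ (dl m - 1))) (Ioi 0) :=
      fun r hr => gint_aux hm htr hr
    rw [integrableOn_congr_fun hE measurableSet_Ioi]
    rw [IntegrableOn, integrable_indicator_iff measurableSet_Iio, IntegrableOn,
      Measure.restrict_restrict measurableSet_Iio]
    have : Iio t ∩ Ioi 0 = Ioo 0 t := by
      ext r
      simp [and_comm]
    rw [this]
    exact hio
  · rw [← integral_indicator measurableSet_ball]
    have : (ball (0 : E2) t).indicator (fun x => Gr m ‖x‖) =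
        fun x : E2 => (Iio t).indicator (Gr m) ‖x‖ := funext key
    have hE : EqOn (fun r => r * (Iio t).indicator (Gr m) r)
        ((Iio t).indicator (fun r => r0 m / (r0 m) ^ (dl m - 1) * r ^ (dl m - 1))) (Ioi 0) :=
      fun r hr => gint_aux hm htr hr
    rw [this, t_RAD.1, setIntegral_congr_fun measurableSet_Ioi hE,
      integral_indicator measurableSet_Iio, Measure.restrict_restrict measurableSet_Iio]
    have : Iio t ∩ Ioi 0 = Ioo 0 t := by
      ext r
      simp [and_comm]
    rw [this, ← integral_Ioc_eq_integral_Ioo, ← intervalIntegral.integral_of_le ht.le,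
      intervalIntegral.integral_const_mul, integral_rpow (Or.inl (by linarith)), sub_add_cancel,
      Real.zero_rpow hd.ne', sub_zero, Real.rpow_sub_one h0.ne', Real.div_rpow ht.le h0.le]
    have hdl : (m : ℝ) ^ 4 = 1 / dl m := by
      unfold dl
      field_simp
    have h1 : (0 : ℝ) < (r0 m) ^ (dl m) := by positivity
    rw [hdl]
    field_simp

end Run7.h216.RSI
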