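import Pool.Agent.Run7.h325.RSI.Stm

/-! Project RSI (helper325), piece RAD (helper216): polar coordinates for radial functions in the plane. -/

set_option autoImplicit false

open MeasureTheory Filter Topology Metric Set

namespace Run7.h216.RSI

open Pool.Agent.Run7.h325.RSI

theorem vol_ball (x : E2) (r : ℝ) (hr : 0 ≤ r) : (volume (ball x r)).toReal = Real.pi * r ^ 2 := by
  rw [EuclideanSpace.volume_ball_fin_two, ENNReal.toReal_mul, ENNReal.toReal_pow,
    ENNReal.toReal_ofReal hr, ENNReal.toReal_ofReal Real.pi_pos.le, mul_comm]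

theorem finrank_E2 : Module.finrank ℝ E2 = 2 := by simp

theorem t_RAD : S_RAD := by
  refine ⟨fun g => ?_, fun g => ?_, fun x r hr => vol_ball x r hr⟩
  · rw [integral_fun_norm_addHaar (μ := (volume : Measure E2)) g, finrank_E2, measureReal_def,
      vol_ball 0 1 zero_le_one]
    simp only [Nat.add_one_sub_one, pow_one, smul_eq_mul, nsmul_eq_mul, one_pow, mul_one]
    push_cast
    ring
  · rw [integrable_fun_norm_addHaar (μ := (volume : Measure E2)) (f := g), finrank_E2]
    simp only [Nat.add_one_sub_one, pow_one, smul_eq_mul]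

end Run7.h216.RSI
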